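import Pool.Agent.Work.MP_820435_lc.Rgch4

/-! The infinite path relation at closed unbounded many ordinals. -/

open Ordinal Cardinal

namespace Pool.Agent.Results.MP_820435_lc.ClubMany

universe u

/-- The relation `α → (α, infinite path)`. -/
def PathRelation (α : Ordinal.{u}) : Prop :=
  ∀ (X : Type u) [LinearOrder X] [WellFoundedLT X], typeLT X = α → ∀ G : SimpleGraph X,
    (∃ S : Set X, typeLT S = α ∧ ∀ x ∈ S, ∀ y ∈ S, ¬ G.Adj x y) ∨
      ∃ x : ℕ → X, Function.Injective x ∧ ∀ n, G.Adj (x n) (x (n + 1))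

/-- `C` is a closed unbounded subset of the ordinal `o`. -/
def IsClubIn (C : Set Ordinal.{u}) (o : Ordinal.{u}) : Prop :=
  (∀ δ ∈ C, δ < o) ∧ (∀ γ < o, ∃ δ ∈ C, γ < δ) ∧
    ∀ δ < o, Order.IsSuccLimit δ → (∀ γ < δ, ∃ δ' ∈ C, γ < δ' ∧ δ' < δ) → δ ∈ C

/-- Let `lam` be an infinite cardinal with `lam ^ ℵ₁ = lam` or `ℶ_ω ≤ lam`. Then there is a closed
unbounded set of ordinals `δ < lam⁺` such that `δ * q` has the relation for every ordinal `q` of
cardinality less than `lam`. -/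
theorem result (lam : Cardinal.{u}) (hlam : (ℵ₀ ≤ lam ∧ lam ^ ℵ₁ = lam) ∨ ℶ_ ω ≤ lam) :
    ∃ C : Set Ordinal.{u}, IsClubIn C (Order.succ lam).ord ∧
      ∀ δ ∈ C, ∀ q : Ordinal.{u}, q.card < lam → PathRelation (δ * q) := by
  have key : ∃ θ : Cardinal.{u}, θ.IsRegular ∧ ℵ₀ < θ ∧ 2 ^ θ ≤ lam ∧ IPath.Covering lam θ := by
    rcases hlam with ⟨h0, h1⟩ | h1
    · refine ⟨ℵ₁, isRegular_aleph_one, aleph0_lt_aleph_one, ?_, ?_⟩
      · calc (2 : Cardinal.{u}) ^ ℵ₁ ≤ lam ^ ℵ₁ :=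
            power_le_power_right ((natCast_lt_aleph0 (n := 2)).le.trans h0)
          _ = lam := h1
      · intro A hA
        refine ⟨{Set.univ}, ?_, ?_, ?_⟩
        · rw [mk_singleton]
          exact one_le_aleph0.trans h0
        · intro s hs
          rw [Set.mem_singleton_iff.1 hs, mk_univ, hA, h1]
        · intro B _
          refine ⟨{Set.univ}, subset_rfl, ?_, ?_⟩
          · rw [mk_singleton]
            exact one_lt_aleph0.trans aleph0_lt_aleph_one
          · rw [Set.sUnion_singleton]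
            exact Set.subset_univ B
    · obtain ⟨N, hN⟩ := IPath.eventually_covering h1
      exact ⟨IPath.kap N, IPath.kap_regular N, IPath.aleph0_lt_kap N,
        (IPath.two_power_lt N).le.trans h1, hN N le_rfl⟩
  obtain ⟨θ, h1, h2, h3, h4⟩ := key
  obtain ⟨C, hC1, hC2, hC3, hC4⟩ := IPath.pathRel_club h1 h2 h3 h4
  exact ⟨C, ⟨hC1, hC2, hC3⟩, hC4⟩

end Pool.Agent.Results.MP_820435_lc.ClubMany
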