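import Pool.Agent.Work.MP_820435_lc.Init

/-! The infinite path relation holds on an initial segment of the multiples of every uncountable
cardinal. -/

open Ordinal Cardinal

namespace Pool.Agent.Results.MP_820435_lc.InitialSegments

universe u

/-- The relation `α → (α, infinite path)`. -/
def PathRelation (α : Ordinal.{u}) : Prop :=
  ∀ (X : Type u) [LinearOrder X] [WellFoundedLT X], typeLT X = α → ∀ G : SimpleGraph X,
    (∃ S : Set X, typeLT S = α ∧ ∀ x ∈ S, ∀ y ∈ S, ¬ G.Adj x y) ∨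
      ∃ x : ℕ → X, Function.Injective x ∧ ∀ n, G.Adj (x n) (x (n + 1))

/-- `t` is one of the following ordinals: `ν`; `ν ^ ν`, if `ν` is an uncountable strong limit
cardinal; `ν * (θ + 1)`, for an uncountable regular cardinal `θ < ν`, different from the cofinality
of `ν`, such that `μ ^ θ < ν` for all cardinals `μ < ν`; `ν * (ρ ^ ρ + 1)`, for a singular strong
limit cardinal `ρ < ν` whose cofinality differs from that of `ν`. -/
def IsExponent (ν : Cardinal.{u}) (t : Ordinal.{u}) : Prop :=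
  t = ν.ord ∨ (ℵ₀ < ν ∧ ν.IsStrongLimit ∧ t = ν.ord ^ ν.ord) ∨
    (∃ θ : Cardinal.{u}, (θ.IsRegular ∧ ℵ₀ < θ ∧ θ < ν ∧ ν.ord.cof ≠ θ ∧ ∀ μ < ν, μ ^ θ < ν) ∧
      t = ν.ord * (θ.ord + 1)) ∨
    ∃ ρ : Cardinal.{u}, (ρ.IsStrongLimit ∧ ρ.ord.cof < ρ ∧ ρ < ν ∧ ν.ord.cof ≠ ρ.ord.cof) ∧
      t = ν.ord * (ρ.ord ^ ρ.ord + 1)

/-- `lam` is the successor of an infinite cardinal `ν` and `E = t + 2` for an exponent `t` of `ν`,
or `lam` is an uncountable limit cardinal and `E` is an exponent of `lam`. -/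
def IsBound (lam : Cardinal.{u}) (E : Ordinal.{u}) : Prop :=
  (∃ ν : Cardinal.{u}, ℵ₀ ≤ ν ∧ lam = Order.succ ν ∧ ∃ t, IsExponent ν t ∧ E = t + 2) ∨
    (ℵ₀ < lam ∧ Order.IsSuccLimit lam ∧ IsExponent lam E)

/-- Every multiple `lam * β` of an uncountable cardinal `lam` with `β < lam ^ E` has the relation,
where the exponent `E` is as above. -/
theorem result (lam : Cardinal.{u}) (E : Ordinal.{u}) (hE : IsBound lam E) (β : Ordinal.{u})
    (hβ : β < lam.ord ^ E) : PathRelation (lam.ord * β) := by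
  rcases hE with ⟨ν, hν, rfl, t, ht, rfl⟩ | ⟨h1, h2, h3⟩
  · exact IPath.pathRel_succ_init hν ht β hβ
  · exact IPath.pathRel_limit_init h1 h2 h3 β hβ

end Pool.Agent.Results.MP_820435_lc.InitialSegments
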