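import Pool.Agent.Work.MP_820435_lc.PosReg2
import Pool.Agent.Work.MP_820435_lc.NegMul

/-! The infinite path relation at the multiples of a regular cardinal `κ`: it holds at all of them
if `κ` is tail-free, and if `κ` is uncountable, not tail-free and `2 ^ ρ ≤ κ` for all `ρ < κ` (for
instance if `κ` is strongly inaccessible) it fails at `κ ^ (q + ε) * δ`, for a fixed `ε < κ⁺`, all
`q < κ⁺` and `0 < δ < κ`. -/

open Ordinal Cardinal

namespace Pool.Agent.Results.MP_820435_lc.TailFreeDichotomy

universe u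

/-- The relation `α → (α, infinite path)`. -/
def PathRelation (α : Ordinal.{u}) : Prop :=
  ∀ (X : Type u) [LinearOrder X] [WellFoundedLT X], typeLT X = α → ∀ G : SimpleGraph X,
    (∃ S : Set X, typeLT S = α ∧ ∀ x ∈ S, ∀ y ∈ S, ¬ G.Adj x y) ∨
      ∃ x : ℕ → X, Function.Injective x ∧ ∀ n, G.Adj (x n) (x (n + 1))

/-- The cardinal `ν` is `ω`-Erdős: every colouring of the finite subsets of a set of size `ν` with
two colours has an infinite homogeneous set. -/
def IsErdosOmega (ν : Cardinal.{u}) : Prop :=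
  ∀ A : Type u, #A = ν → ∀ c : Finset A → Prop, ∃ H : Set A, H.Infinite ∧
    ∀ s t : Finset A, (s : Set A) ⊆ H → (t : Set A) ⊆ H → s.card = t.card → (c s ↔ c t)

/-- The cardinal `ν` is tail-free: if a countable set `F l` is attached to every finite sequence
`l` of elements of a set of size `ν`, then there is an infinite sequence `y` such that `y i` is
never in `F (y (i + 1), ..., y (i + n))`. -/
def IsTailFree (ν : Cardinal.{u}) : Prop :=
  ∀ A : Type u, #A = ν → ∀ F : List A → Set A, (∀ l, (F l).Countable) →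
    ∃ y : ℕ → A, ∀ i n : ℕ, y i ∉ F ((List.range n).map (fun k => y (i + 1 + k)))

theorem tailFreeC_of_le {ν κ : Cardinal.{u}} (h : ν ≤ κ) (hν : IsErdosOmega ν ∨ IsTailFree ν) :
    Pool.Agent.W820.TailFreeC κ.ord.ToType := by
  have h1 : Pool.Agent.W820.TailFreeC ν.ord.ToType := by
    rcases hν with h | h
    · exact IPath.tailFreeC_of_erdosOmega h _ (by simp)
    · exact h _ (by simp)
  have h2 : #ν.ord.ToType ≤ #κ.ord.ToType := by simpa using h
  obtain ⟨e⟩ := h2
  exact IPath.tailFreeC_of_embedding e h1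

/-- Let `κ` be a regular cardinal.
(1) If some `ν ≤ κ` is `ω`-Erdős or tail-free, then `κ * β + γ` has the relation exactly when `γ`
has it, for all ordinals `β` and all `γ` which are `0` or a limit ordinal.
(2) If `κ` is uncountable and not tail-free and `2 ^ ρ ≤ κ` for all `ρ < κ`, then there is `ε < κ⁺`
such that the relation fails at `κ ^ (q + ε) * δ` for all ordinals `q` of cardinality at most `κ`
and all nonzero `δ` of cardinality less than `κ`. -/
theorem result (κ : Cardinal.{u}) (hκ : κ.IsRegular) :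
    ((∃ ν ≤ κ, IsErdosOmega ν ∨ IsTailFree ν) → ∀ β γ : Ordinal.{u},
      (γ = 0 ∨ Order.IsSuccLimit γ) → (PathRelation (κ.ord * β + γ) ↔ PathRelation γ)) ∧
    (ℵ₀ < κ → (∀ ρ < κ, 2 ^ ρ ≤ κ) → ¬ IsTailFree κ →
      ∃ ε < (Order.succ κ).ord, ∀ q δ : Ordinal.{u}, q.card ≤ κ → δ ≠ 0 → δ.card < κ →
        ¬ PathRelation (κ.ord ^ (q + ε) * δ)) := by
  refine ⟨?_, ?_⟩
  · rintro ⟨ν, hν, h⟩ β γ hγ
    exact IPath.pathRel_mul_add_iff_reg hκ (tailFreeC_of_le hν h) β γ hγ
  · intro hκ1 hpow hTF
    have hTF' : ¬ Pool.Agent.W820.TailFree κ.ord.ToType := by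
      intro h
      apply hTF
      intro A hA
      have h1 : #κ.ord.ToType = #A := by rw [hA, mk_toType, card_ord]
      obtain ⟨e⟩ := Cardinal.eq.1 h1
      exact (IPath.tailFreeC_of_tailFree h).congr e
    exact IPath.not_pathRel_regular_mul hκ hκ1 hpow hTF'

end Pool.Agent.Results.MP_820435_lc.TailFreeDichotomy
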